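import Mathlib

/-!
# The class of representable implication semigroups is not a variety

We exhibit a finite implication semigroup `A`, representable over a 9-element base, and a
homomorphic image `B` of `A` which is not representable over any base.
-/

namespace Pool.Agent.Results.MP_390e14_lc.NotVariety

universe u v w

/-- Algebras of the signature `(→, ;)`. -/
class Alg (A : Type u) where
  /-- the operation `→` -/
  imp : A → A → A
  /-- the operation `;` -/
  comp : A → A → A

/-- Relative implication `(T \ a) ∪ b`. -/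
def relImp {X : Type v} (T a b : Set (X × X)) : Set (X × X) := (T \ a) ∪ b

/-- Relational composition. -/
def relComp {X : Type v} (a b : Set (X × X)) : Set (X × X) :=
  {p | ∃ y, (p.1, y) ∈ a ∧ (y, p.2) ∈ b}

/-- Transitivity of a binary relation given as a set of pairs. -/
def TransRel {X : Type v} (T : Set (X × X)) : Prop :=
  ∀ x y z, (x, y) ∈ T → (y, z) ∈ T → (x, z) ∈ T

/-- `A` embeds into the full implication semigroup over some transitive `T ⊆ X × X`. -/
def RepresentableOn (A : Type u) [Alg A] (X : Type v) : Prop :=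
  ∃ T : Set (X × X), TransRel T ∧ ∃ h : A → Set (X × X), Function.Injective h ∧
    (∀ a, h a ⊆ T) ∧ (∀ a b, h (Alg.imp a b) = relImp T (h a) (h b)) ∧
    (∀ a b, h (Alg.comp a b) = relComp (h a) (h b))

/-- `A` is representable (over some base). -/
def Representable (A : Type u) [Alg A] : Prop := ∃ X : Type v, RepresentableOn A X

/-- Homomorphisms. -/
def IsHom {A : Type u} {B : Type v} [Alg A] [Alg B] (f : A → B) : Prop :=
  (∀ a b, f (Alg.imp a b) = Alg.imp (f a) (f b)) ∧
  (∀ a b, f (Alg.comp a b) = Alg.comp (f a) (f b))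

/-- Terms of the signature `(→, ;)` over the variables `0, 1, 2, ...`. -/
inductive Term : Type
  | var : ℕ → Term
  | imp : Term → Term → Term
  | comp : Term → Term → Term

/-- The value of a term under an assignment. -/
def Term.eval {A : Type u} [Alg A] (ν : ℕ → A) : Term → A
  | .var n => ν n
  | .imp s t => Alg.imp (s.eval ν) (t.eval ν)
  | .comp s t => Alg.comp (s.eval ν) (t.eval ν)

/-- `A` satisfies the equation `e.1 = e.2`. -/
def Satisfies (A : Type u) [Alg A] (e : Term × Term) : Prop :=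
  ∀ ν : ℕ → A, e.1.eval ν = e.2.eval ν

/-! ### The algebras -/

/-- Labels (the atoms of the quotient algebra). -/
inductive L : Type
  | a | p | q | c | t | s | k | k1 | g | g1 | m0 | m1 | n0 | n1 | r
  deriving DecidableEq

instance : Fintype L :=
  ⟨{.a, .p, .q, .c, .t, .s, .k, .k1, .g, .g1, .m0, .m1, .n0, .n1, .r}, by
    intro l; cases l <;> decide⟩

/-- The labels in the composition of two sets of labels. -/
def compP (b c : Set L) : L → Prop
  | .a => False
  | .p => False
  | .q => False
  | .c => False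
  | .t => L.a ∈ b ∧ L.p ∈ c
  | .s => L.q ∈ b ∧ L.c ∈ c
  | .k => L.a ∈ b ∨ L.m0 ∈ b ∨ (L.t ∈ b ∧ L.q ∈ c)
  | .k1 => L.a ∈ b ∨ L.m1 ∈ b
  | .g => L.c ∈ c ∨ L.n0 ∈ c ∨ (L.p ∈ b ∧ L.s ∈ c)
  | .g1 => L.n1 ∈ c ∨ L.c ∈ c
  | .m0 => L.a ∈ b ∨ L.m0 ∈ b
  | .m1 => L.a ∈ b ∨ L.m1 ∈ b
  | .n0 => L.n0 ∈ c ∨ L.c ∈ c
  | .n1 => L.n1 ∈ c ∨ L.c ∈ c
  | .r => (L.a ∈ b ∧ L.g ∈ c) ∨ (L.a ∈ b ∧ L.g1 ∈ c) ∨ (L.t ∈ b ∧ L.s ∈ c) ∨
      (L.m0 ∈ b ∧ L.n1 ∈ c) ∨ (L.m1 ∈ b ∧ L.n0 ∈ c) ∨ (L.k ∈ b ∧ L.c ∈ c) ∨
      (L.k1 ∈ b ∧ L.c ∈ c)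

/-- Composition on sets of labels. -/
def compL (b c : Set L) : Set L := {l | compP b c l}

lemma mem_compL (b c : Set L) (l : L) : l ∈ compL b c ↔ compP b c l := Iff.rfl

/-- The quotient algebra `B`: all sets of labels. -/
def B : Type := Set L

/-- The representable algebra `A`: a set of labels together with a flag. -/
def A : Type := Set L × Prop

instance : Alg B where
  imp := fun b c => (bᶜ ∪ c : Set L)
  comp := compL

instance : Alg A where
  imp := fun b c => ((b.1ᶜ ∪ c.1 : Set L), (b.2 → c.2))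
  comp := fun b c => (compL b.1 c.1, L.p ∈ b.1 ∧ L.q ∈ c.1)

instance : Finite B := inferInstanceAs (Finite (Set L))
instance : Finite A := inferInstanceAs (Finite (Set L × Prop))

lemma B_imp (b c : Set L) : (Alg.imp (A := B) b c : Set L) = (bᶜ ∪ c : Set L) := rfl
lemma B_comp (b c : Set L) : (Alg.comp (A := B) b c : Set L) = compL b c := rfl

/-- The projection forgetting the flag. -/
def π : A → B := fun x => x.1

lemma π_surj : Function.Surjective π := fun b => ⟨(b, True), rfl⟩

lemma π_hom : IsHom π := ⟨fun _ _ => rfl, fun _ _ => rfl⟩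

/-! ### `A` is representable over nine points -/

/-- The points of the base. -/
inductive P : Type
  | u | x | x' | y | w | w' | z | z' | v
  deriving DecidableEq

instance : Fintype P :=
  ⟨{.u, .x, .x', .y, .w, .w', .z, .z', .v}, by intro i; cases i <;> decide⟩

/-- Kinds of pairs: not in `T`, in every element, the flagged pair, or labelled. -/
inductive E : Type
  | none | real | virt
  | lab : L → E

/-- The kind of a pair of points. -/
def edge : P → P → E
  | .u, .x => .lab .a
  | .u, .x' => .lab .a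
  | .u, .y => .lab .t
  | .u, .w => .lab .m0
  | .u, .w' => .lab .m1
  | .u, .z => .lab .k
  | .u, .z' => .lab .k1
  | .u, .v => .lab .r
  | .x, .y => .lab .p
  | .x, .z => .virt
  | .x, .w' => .real
  | .x, .z' => .real
  | .x, .v => .lab .g
  | .x', .w => .real
  | .x', .z => .real
  | .x', .v => .lab .g1
  | .y, .z => .lab .q
  | .y, .v => .lab .s
  | .w, .w => .real
  | .w, .z => .real
  | .w, .v => .lab .n1
  | .w', .w' => .real
  | .w', .z' => .real
  | .w', .v => .lab .n0
  | .z, .v => .lab .c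
  | .z', .v => .lab .c
  | _, _ => .none

/-- Membership of a kind of pair in an element of `A`. -/
def holds (b : Set L) (e : Prop) : E → Prop
  | .none => False
  | .real => True
  | .virt => e
  | .lab l => l ∈ b

lemma P.exists_iff (f : P → Prop) : (∃ i, f i) ↔
    f .u ∨ f .x ∨ f .x' ∨ f .y ∨ f .w ∨ f .w' ∨ f .z ∨ f .z' ∨ f .v := by
  constructor
  · rintro ⟨i, hi⟩
    cases i <;> simp [hi]
  · rintro (h | h | h | h | h | h | h | h | h) <;> exact ⟨_, h⟩

/-- The representation of `A`. -/
def hA (x : A) : Set (P × P) := {p | holds x.1 x.2 (edge p.1 p.2)}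

/-- The top relation. -/
def TA : Set (P × P) := {p | holds Set.univ True (edge p.1 p.2)}

/-- Being a pair of `T`, as a Boolean. -/
def isEdge (i j : P) : Bool :=
  match edge i j with
  | .none => false
  | _ => true

lemma isEdge_iff (i j : P) : (i, j) ∈ TA ↔ isEdge i j = true := by
  simp only [TA, Set.mem_ofPred_eq, isEdge]
  cases edge i j <;> simp [holds]

lemma isEdge_trans : ∀ i j k : P, isEdge i j = true → isEdge j k = true → isEdge i k = true := by
  decide

lemma TA_trans : TransRel TA := by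
  intro i j k
  rw [isEdge_iff, isEdge_iff, isEdge_iff]
  exact isEdge_trans i j k

set_option maxHeartbeats 4000000 in
lemma comp_key (b c : Set L) (e f : Prop) (i j : P) :
    holds (compL b c) (L.p ∈ b ∧ L.q ∈ c) (edge i j) ↔
      ∃ k : P, holds b e (edge i k) ∧ holds c f (edge k j) := by
  rw [P.exists_iff]
  cases i <;> cases j <;> simp only [edge, holds, mem_compL, compP, false_and, and_false,
    true_and, and_true, or_false, false_or, or_true] <;> tauto

lemma A_representable : RepresentableOn A P := by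
  refine ⟨TA, TA_trans, hA, ?_, ?_, ?_, ?_⟩
  · rintro ⟨b, e⟩ ⟨c, f⟩ h
    have hp : ∀ i j : P, holds b e (edge i j) ↔ holds c f (edge i j) := by
      intro i j
      have : ((i, j) ∈ hA (b, e)) ↔ ((i, j) ∈ hA (c, f)) := by rw [h]
      exact this
    have h1 : b = c := by
      ext l
      cases l
      · exact hp .u .x
      · exact hp .x .y
      · exact hp .y .z
      · exact hp .z .v
      · exact hp .u .y
      · exact hp .y .v
      · exact hp .u .z
      · exact hp .u .z'
      · exact hp .x .v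
      · exact hp .x' .v
      · exact hp .u .w
      · exact hp .u .w'
      · exact hp .w' .v
      · exact hp .w .v
      · exact hp .u .v
    have h2 : e = f := propext (hp .x .z)
    rw [h1, h2]
  · rintro ⟨b, e⟩ ⟨i, j⟩ h
    change holds b e (edge i j) at h
    change holds Set.univ True (edge i j)
    generalize edge i j = k at h ⊢
    cases k <;> simp_all [holds]
  · rintro ⟨b, e⟩ ⟨c, f⟩
    ext ⟨i, j⟩
    change holds (bᶜ ∪ c) (e → f) (edge i j) ↔ (holds Set.univ True (edge i j) ∧
      ¬ holds b e (edge i j)) ∨ holds c f (edge i j)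
    cases edge i j <;> simp [holds] <;> tauto
  · rintro ⟨b, e⟩ ⟨c, f⟩
    ext ⟨i, j⟩
    exact comp_key b c e f i j

/-! ### `B` is not representable -/

lemma B_not_representable (X : Type v) : ¬ RepresentableOn B X := by
  rintro ⟨T, -, h', hinj', hsub', himp', hcomp'⟩
  -- work with sets of labels
  let h : Set L → Set (X × X) := h'
  have hinj : Function.Injective h := hinj'
  have hsub : ∀ b, h b ⊆ T := hsub'
  have himp : ∀ b c : Set L, h (bᶜ ∪ c) = relImp T (h b) (h c) := himp'
  have hcomp : ∀ b c : Set L, h (compL b c) = relComp (h b) (h c) := hcomp'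
  clear hcomp' himp' hsub' hinj'
  have hunion : ∀ b c : Set L, h (b ∪ c) = h b ∪ h c := by
    intro b c
    have e : b ∪ c = ((bᶜ ∪ c)ᶜ ∪ c : Set L) := by
      ext l; simp; tauto
    rw [e, himp, himp]
    ext p
    have h1 := @hsub b p
    have h2 := @hsub c p
    simp only [relImp, Set.mem_union, Set.mem_sdiff]
    tauto
  have hinter : ∀ (b c : Set L) (p : X × X), p ∈ h b → p ∈ h c → p ∈ h (b ∩ c) := by
    intro b c p hb hc
    have e : (bᶜ ∪ (b ∩ c) : Set L) = (bᶜ ∪ c : Set L) := by
      ext l; simp; tauto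
    have h1 : p ∈ h (bᶜ ∪ (b ∩ c)) := by
      rw [e, himp]
      exact Or.inr hc
    rw [himp] at h1
    rcases h1 with h1 | h1
    · exact absurd hb h1.2
    · exact h1
  have hmono : ∀ b c : Set L, b ⊆ c → h b ⊆ h c := by
    intro b c hbc
    have : c = b ∪ c := (Set.union_eq_self_of_subset_left hbc).symm
    rw [this, hunion]
    exact Set.subset_union_left
  have hdisj : ∀ (b c : Set L) (p : X × X), p ∈ h b → p ∈ h c → b ∩ c = ∅ → p ∈ h ∅ := by
    intro b c p hb hc e
    have := hinter b c p hb hc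
    rwa [e] at this
  have hfour : ∀ (l1 l2 l3 l4 : L) (p : X × X), p ∈ h {l1, l2, l3, l4} →
      p ∈ h {l1} ∨ p ∈ h {l2} ∨ p ∈ h {l3} ∨ p ∈ h {l4} := by
    intro l1 l2 l3 l4 p hp
    have e : ({l1, l2, l3, l4} : Set L) = {l1} ∪ ({l2} ∪ ({l3} ∪ {l4})) := by
      ext l; simp; tauto
    rw [e, hunion, hunion, hunion] at hp
    exact hp
  -- an edge with label exactly `r`
  obtain ⟨⟨U, V⟩, hr, h0⟩ : ∃ p, p ∈ h {L.r} ∧ p ∉ h ∅ := by
    by_contra hcon
    push Not at hcon
    have : h {L.r} = h ∅ := Set.Subset.antisymm hcon (hmono _ _ (Set.empty_subset _))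
    have := hinj this
    exact Set.singleton_ne_empty _ this
  have mc : ∀ (b c : Set L) (x y : X), (x, y) ∈ h (compL b c) →
      ∃ z, (x, z) ∈ h b ∧ (z, y) ∈ h c := by
    intro b c x y hxy
    rw [hcomp] at hxy
    exact hxy
  have cm : ∀ (b c : Set L) (x z y : X), (x, z) ∈ h b → (z, y) ∈ h c →
      (x, y) ∈ h (compL b c) := by
    intro b c x z y h1 h2
    rw [hcomp]
    exact ⟨z, h1, h2⟩
  -- the forced configuration
  obtain ⟨Y, hUY, hYV⟩ := mc {L.t} {L.s} U V (hmono {L.r} _ (by
    intro l hl; rw [Set.mem_singleton_iff] at hl; subst hl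
    simp [mem_compL, compP]) hr)
  obtain ⟨X1, hUX, hXY⟩ := mc {L.a} {L.p} U Y (hmono {L.t} _ (by
    intro l hl; rw [Set.mem_singleton_iff] at hl; subst hl
    simp [mem_compL, compP]) hUY)
  obtain ⟨Z, hYZ, hZV⟩ := mc {L.q} {L.c} Y V (hmono {L.s} _ (by
    intro l hl; rw [Set.mem_singleton_iff] at hl; subst hl
    simp [mem_compL, compP]) hYV)
  have e1 : compL {L.p} {L.q} = ∅ := by
    ext l; cases l <;> simp [mem_compL, compP]
  have e2 : compL {L.t} {L.q} = {L.k} := by
    ext l; cases l <;> simp [mem_compL, compP]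
  have e3 : compL {L.p} {L.s} = {L.g} := by
    ext l; cases l <;> simp [mem_compL, compP]
  have e4 : compL ∅ ∅ = ∅ := by
    ext l; cases l <;> simp [mem_compL, compP]
  have e5 : compL {L.a} ∅ = {L.k, L.k1, L.m0, L.m1} := by
    ext l; cases l <;> simp [mem_compL, compP]
  have e6 : compL ∅ {L.c} = {L.g, L.g1, L.n1, L.n0} := by
    ext l; cases l <;> simp [mem_compL, compP]
  have hXZ : (X1, Z) ∈ h ∅ := by
    have := cm _ _ _ _ _ hXY hYZ
    rwa [e1] at this
  have hUZ : (U, Z) ∈ h {L.k} := by
    have := cm _ _ _ _ _ hUY hYZ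
    rwa [e2] at this
  have hXV : (X1, V) ∈ h {L.g} := by
    have := cm _ _ _ _ _ hXY hYV
    rwa [e3] at this
  -- a point in between
  obtain ⟨W, hXW, hWZ⟩ := mc ∅ ∅ X1 Z (by rw [e4]; exact hXZ)
  have hUW := cm _ _ _ _ _ hUX hXW
  rw [e5] at hUW
  have hWV := cm _ _ _ _ _ hWZ hZV
  rw [e6] at hWV
  -- `(U, W)` does not have the label `m1`
  have hm1 : (U, W) ∉ h {L.m1} := by
    intro hm
    have h1 := cm _ _ _ _ _ hm hWZ
    have h2 : (U, Z) ∈ h ∅ := hdisj _ _ _ hUZ h1 (by
      ext l; cases l <;> simp [mem_compL, compP])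
    have h3 := cm _ _ _ _ _ h2 hZV
    rw [e6] at h3
    exact h0 (hdisj _ _ _ hr h3 (by ext l; cases l <;> simp))
  -- `(W, V)` does not have the label `n1`
  have hn1 : (W, V) ∉ h {L.n1} := by
    intro hn
    have h1 := cm _ _ _ _ _ hXW hn
    have h2 : (X1, V) ∈ h ∅ := hdisj _ _ _ hXV h1 (by
      ext l; cases l <;> simp [mem_compL, compP])
    have h3 := cm _ _ _ _ _ hUX h2
    rw [e5] at h3
    exact h0 (hdisj _ _ _ hr h3 (by ext l; cases l <;> simp))
  have hfin : ∀ l1 l2 : L, (U, W) ∈ h {l1} → (W, V) ∈ h {l2} →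
      ({L.r} : Set L) ∩ compL {l1} {l2} = ∅ → False := by
    intro l1 l2 h1 h2 he
    exact h0 (hdisj _ _ _ hr (cm _ _ _ _ _ h1 h2) he)
  rcases hfour _ _ _ _ _ hUW with h1 | h1 | h1 | h1
  · rcases hfour _ _ _ _ _ hWV with h2 | h2 | h2 | h2
    · exact hfin _ _ h1 h2 (by ext l; cases l <;> simp [mem_compL, compP])
    · exact hfin _ _ h1 h2 (by ext l; cases l <;> simp [mem_compL, compP])
    · exact hn1 h2
    · exact hfin _ _ h1 h2 (by ext l; cases l <;> simp [mem_compL, compP])
  · rcases hfour _ _ _ _ _ hWV with h2 | h2 | h2 | h2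
    · exact hfin _ _ h1 h2 (by ext l; cases l <;> simp [mem_compL, compP])
    · exact hfin _ _ h1 h2 (by ext l; cases l <;> simp [mem_compL, compP])
    · exact hn1 h2
    · exact hfin _ _ h1 h2 (by ext l; cases l <;> simp [mem_compL, compP])
  · rcases hfour _ _ _ _ _ hWV with h2 | h2 | h2 | h2
    · exact hfin _ _ h1 h2 (by ext l; cases l <;> simp [mem_compL, compP])
    · exact hfin _ _ h1 h2 (by ext l; cases l <;> simp [mem_compL, compP])
    · exact hn1 h2
    · exact hfin _ _ h1 h2 (by ext l; cases l <;> simp [mem_compL, compP])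
  · exact hm1 h1

/-! ### Conclusion -/

lemma RepresentableOn.transport {C : Type u} [Alg C] {X : Type v} {Y : Type w} (e : X ≃ Y)
    (hr : RepresentableOn C X) : RepresentableOn C Y := by
  obtain ⟨T, hT, h, hinj, hsub, himp, hcomp⟩ := hr
  refine ⟨{p | (e.symm p.1, e.symm p.2) ∈ T}, fun x y z h1 h2 => hT _ _ _ h1 h2,
    fun c => {p | (e.symm p.1, e.symm p.2) ∈ h c}, ?_, ?_, ?_, ?_⟩
  · intro c d hcd
    apply hinj
    ext ⟨i, j⟩
    have hcd' : {p : Y × Y | (e.symm p.1, e.symm p.2) ∈ h c} =
        {p : Y × Y | (e.symm p.1, e.symm p.2) ∈ h d} := hcd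
    have : ((e i, e j) ∈ {p : Y × Y | (e.symm p.1, e.symm p.2) ∈ h c}) ↔
        ((e i, e j) ∈ {p : Y × Y | (e.symm p.1, e.symm p.2) ∈ h d}) := by rw [hcd']
    simpa using this
  · intro c p hp
    exact hsub c hp
  · intro c d
    ext p
    simp only [Set.mem_ofPred_eq, himp, relImp, Set.mem_union, Set.mem_sdiff]
  · intro c d
    ext p
    simp only [Set.mem_ofPred_eq, hcomp, relComp]
    constructor
    · rintro ⟨y, h1, h2⟩
      exact ⟨e y, by simpa using h1, by simpa using h2⟩
    · rintro ⟨y, h1, h2⟩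
      exact ⟨e.symm y, h1, h2⟩

lemma eval_hom {C : Type u} {D : Type v} [Alg C] [Alg D] (f : C → D) (hf : IsHom f)
    (ν : ℕ → C) (t : Term) : t.eval (fun n => f (ν n)) = f (t.eval ν) := by
  induction t with
  | var n => rfl
  | imp s t ihs iht => simp only [Term.eval, ihs, iht, hf.1]
  | comp s t ihs iht => simp only [Term.eval, ihs, iht, hf.2]

lemma satisfies_image {C : Type u} {D : Type v} [Alg C] [Alg D] (f : C → D) (hf : IsHom f)
    (hs : Function.Surjective f) (e : Term × Term) (h : Satisfies C e) : Satisfies D e := by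
  intro ν
  choose μ hμ using fun n => hs (ν n)
  have : ν = fun n => f (μ n) := by
    funext n; exact (hμ n).symm
  rw [this, eval_hom f hf, eval_hom f hf, h μ]

/-- **Theorem** (answer to Q1: no). There are finite algebras `A`, `B` of the signature `(→, ;)`
and a surjective homomorphism `A → B` such that `A` is representable over a finite base and `B` is
not representable over any base; consequently the class of representable implication semigroups
is not the class of all models of a set of equations. -/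
theorem result :
    (∃ (A B : Type) (_ : Finite A) (_ : Finite B) (_ : Alg A) (_ : Alg B) (f : A → B),
      IsHom f ∧ Function.Surjective f ∧ (∃ X : Type, Finite X ∧ RepresentableOn A X) ∧
      ∀ X : Type v, ¬ RepresentableOn B X) ∧
    ¬ ∃ E : Set (Term × Term), ∀ (C : Type) [Alg C],
      Representable.{0, v} C ↔ ∀ e ∈ E, Satisfies C e := by
  refine ⟨⟨A, B, inferInstance, inferInstance, inferInstance, inferInstance, π, π_hom, π_surj,
    ⟨P, inferInstance, A_representable⟩, fun X => B_not_representable X⟩, ?_⟩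
  rintro ⟨E, hE⟩
  have hA : Representable.{0, v} A :=
    ⟨ULift.{v} P, A_representable.transport Equiv.ulift.symm⟩
  have hB : ∀ e ∈ E, Satisfies B e := fun e he =>
    satisfies_image π π_hom π_surj e ((hE A).1 hA e he)
  obtain ⟨X, hX⟩ := (hE B).2 hB
  exact B_not_representable X hX

end Pool.Agent.Results.MP_390e14_lc.NotVariety
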